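import Pool.Agent.U3.SD.Mod

/-!
# Witt cancellation for self-dual Chow-Kunneth decompositions

`𝒱` is a class of smooth projective geometrically irreducible varieties over the field `k` closed
under products (for example all of them), `C` the Chow groups with rational coefficients (in the
form of their formal properties, `IsChowProj`) and `H` a Weil cohomology theory (`IsWeilProj`).

1. Let `a` be an isometric embedding (up to a factor) of a twist of the motive `h(X)` into `h(Y)`,
   such that the complementary projector `e` of `h(Y)` has the nilpotency property `HomNil`: `e ∘ x`
   is nilpotent for all homologically trivial `x` (for instance if `e` factors through a variety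
   whose motive is finite-dimensional in the sense of Kimura). Then `Y` has a self-dual
   Chow-Kunneth decomposition if and only if `X` has one and the Kunneth components of `Y` in
   degrees `< dim Y` are algebraic. No finiteness is assumed for `X` and `Y`, and the given
   decomposition of `Y` has no relation to the embedding.
2. So the existence of a self-dual Chow-Kunneth decomposition is invariant under chains of blow-ups
   and blow-downs (more generally of morphisms of non-zero degree) with finite-dimensional centres
   satisfying the standard conjecture C. By the weak factorisation theorem it is in particular a
   birational invariant of smooth projective threefolds over algebraically closed fields of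
   characteristic zero, where the centres are points and curves.

The proof of 1. is an analogue of Witt's cancellation theorem in the ring of correspondences with
its involution: a hyperbolic pair of idempotents is split off for each pair of degrees `n`,
`2 dim Y - n`, and the two complements are shown to be isometric with the help of a square root.
-/

open CategoryTheory AlgebraicGeometry

set_option autoImplicit false

universe u v w

namespace Pool.Agent.Results.MP_8a7054_ag.BlowUpInvariance

open Pool.Agent.H914 Pool.Agent.W492.BB Pool.Agent.TH133 Pool.Agent.U3.SD

/-- Self-dual Chow-Kunneth decompositions and orthogonal complements with nilpotent homologically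
trivial correspondences; invariance under modifications with finite-dimensional centres. -/
theorem result {k : Type u} [Field k] {𝒱 : VarClass k} (C : TheoryData.{u, v, 0} 𝒱 ℚ)
    [IsChowProj C] {K : Type w} [Field K] (H : WeilTheoryData.{u, v, w} C K) [IsWeilProj H] :
    (∀ (X Y : 𝒱.Obj) (r : ℕ) (l : ℚ) (a : C.A (X.prod Y)), IsEmbedding C r l a →
      HomNil H (complement C l a) →
      (HasSD H Y ↔ HasSD H X ∧ ∀ n < Y.dim, ∃ c : C.A (Y.prod Y), IsProj H n c)) ∧
    (∀ X Y : 𝒱.Obj, Relation.EqvGen (FiniteModification H) X Y → (HasSD H X ↔ HasSD H Y)) :=
  ⟨fun _ _ _ _ _ h hnil => hasSD_iff_of_embedding h hnil, fun _ _ h => hasSD_iff_of_chain h⟩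

end Pool.Agent.Results.MP_8a7054_ag.BlowUpInvariance
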