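import Pool.Agent.U724.CH.KunG

/-!
# MP_8a7054_ag: self-dual Chow–Künneth decompositions descend along fibrations

Let `X` be a smooth projective variety over a field `k`, and `e` the intersection with a divisor class
on `X`, a nilpotent self-correspondence of `X`. A Chow–Künneth decomposition `π_i` (`i ∈ ℤ`; the class of
`π_i` is the projector to `H ^ (dim X + i) (X)`) is of Lefschetz type for `e` if
`e π_i = π_(i + 2) e` and there is a correspondence `f` with `f π_(i + 2) = π_i f` and
`[e, f] = ∑ i π_i`; it is self-dual if `π_(-i)` is the transpose of `π_i`. (Curves, surfaces, abelian
varieties by Künnemann, ... have such decompositions.)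

Theorem. Let `p : Z → X` be a morphism of smooth projective varieties with fibres of dimension `d`,
let `η` be the intersection with the pull-back of the divisor class on `X` and `ξ` the intersection
with a divisor class on `Z` such that `ξ ^ (d + 1) = 0` and `p_* ξ ^ d ≠ 0`. If `Z` has a Chow–Künneth
decomposition of Lefschetz type for `η + ξ`, not necessarily self-dual, then `X` has a self-dual one
for `e`. More generally, `p ^ *` and `p_*` can be replaced by correspondences `a` and `b` with the
properties in `Motives.IsFibred`.

Examples: (1) `Z` is an abelian scheme over `X` of relative dimension `d`, and `ξ` is given by a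
symmetric relatively ample line bundle which is trivial along the zero section: `ξ ^ (d + 1) = 0` in
the Chow group with rational coefficients by Deninger and Murre. (2) `Z = X × Y` and `ξ` is the
pull-back of an ample class on `Y`, `d = dim Y`. (3) Quotients of (1) and (2) by finite groups. (4) `p`
is generically finite and `ξ = 0`, `d = 0` (this case is the starting result `LefschetzDescent`).

The motive of `X` is a direct factor of the motive of `Z`, but for `d > 0` the embedding `p ^ *` is not
compatible with the Lefschetz operators `e` and `η + ξ`, and it is not known in general that the
direct factors of `h (Z)` have Chow–Künneth decompositions if `Z` has. No finiteness condition on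
motives and none of the standard conjectures is assumed.

Idea of the proof. `Z` has a decomposition of Lefschetz type for `E = η + ξ` if and only if there is a
`z` in `CH (Z × Z)` such that `[[E, z], E] = 2 E` and the class of `[E, z]` is the weight
operator. The conditional expectation `Φ (x) = ∑_(p + q = d) b ξ ^ q x ξ ^ p a`, an additive map from
`CH (Z × Z)` to `CH (X × X)`, satisfies `[e, Φ (x)] = Φ ([E, x])`, because the sum of the terms with the
commutators `[ξ, x]` is telescoping, and `Φ (E) = (d + 1) (b ξ ^ d a) e`. So `Φ (z) / ((d + 1) b ξ ^ d a)` is a
solution for `X`; the theorem of Jacobson and Morozov (in the algebra of correspondences, of infinite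
dimension) gives the decomposition, and `(z + z^t) / 2` gives a self-dual one.

The setting. The Chow group `Chow X` of a scheme `X` (cycles of all dimensions with rational
coefficients modulo rational equivalence) is defined with the order of vanishing of Mathlib.
Intersection theory enters through the category `C` of Chow motives over `k` with the correspondences
of all degrees as morphisms: a symmetric monoidal category with objects `h (X)` for the varieties `X`
over `k`, self-dual, with `Hom (1, h (X)) = Chow X` and `h (X × Y) = h (X) ⊗ h (Y)` (structure
`Motives`). `R` is a Weil cohomology with coefficient field `K` of characteristic zero, a tensor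
functor from `C` to super vector spaces; `W` and `WZ` are the operators on the cohomology of `X` and of
`Z` which are the multiplication by `i - dim X` on `H ^ i (X)` and by `i - dim X - d` on `H ^ i (Z)`.
-/

set_option autoImplicit false

open CategoryTheory MonoidalCategory Module
open Pool.Agent.Y112.SR Pool.Agent.U724.CH

namespace Pool.Agent.Results.MP_8a7054_ag.DescentAlongFibrations

universe u u' v w

/-- Chow–Künneth decompositions of Lefschetz type of the total space of a fibration give self-dual
ones of the base. -/
theorem result {k : Type u} [Field k] {C : Type u'} [Category.{v} C] [Preadditive C]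
    [MonoidalCategory C] [MonoidalPreadditive C] [SymmetricCategory C]
    [Linear ℚ C] [MonoidalLinear ℚ C] (M : Motives k C)
    {K : Type w} [Field K] [CharZero K] (R : SuperRealisation C K)
    (X Z : Sch k) (hX : M.IsVar X) (hZ : M.IsVar Z)
    (W : Module.End K (M.Coh R X)) (hW : M.IsWeight R hX W)
    (WZ : Module.End K (M.Coh R Z)) (hWZ : M.IsWeight R hZ WZ)
    (e : Chow (prod X X).left) (he : M.IsTranspose hX e e) (N : ℕ) (hN : M.ring hX e ^ N = 0)
    (η ξ : Chow (prod Z Z).left) (d : ℕ) (a : Chow (prod X Z).left) (b : Chow (prod Z X).left)
    (hf : M.IsFibred R hX hZ W WZ e η ξ d a b) (N' : ℕ) (h : M.HasLCK R hZ WZ (η + ξ) N') :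
    M.LefschetzCK R hX W e N :=
  M.lck_fib R hX hZ hW hWZ.span he hN hf h

end Pool.Agent.Results.MP_8a7054_ag.DescentAlongFibrations
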