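import Pool.Agent.U3.SD.Main

/-!
# Self-dual Chow-Kunneth decompositions from the lower half of the cohomology

`𝒱` is a class of smooth projective geometrically irreducible varieties over the field `k` closed
under products (for example all of them), `C` the Chow groups with rational coefficients (in the
form of their formal properties, `IsChowProj`), `H` a Weil cohomology theory (`IsWeilProj`), and `X`
a variety of dimension `d`.

1. `X` has a self-dual Chow-Kunneth decomposition such that `π n ∘ x` is nilpotent for `n < d` and
   all homologically trivial `x` if and only if for each `n < d` there is some correspondence `a n`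
   acting on the cohomology as the projection onto `H^n(X)` with this nilpotency. The `a n` need not
   be idempotent, orthogonal or related to their transposes modulo rational equivalence, and nothing
   is assumed about the middle degree `d` (nor, of course, about the degrees above `d`).
2. This holds if, for `n < d`, the projection onto `H^n(X)` is induced by some correspondence which
   factors through a variety `Y n` whose motive is finite-dimensional in the sense of Kimura (or all
   of whose homologically trivial self-correspondences are nilpotent); then `h^n(X)` is a direct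
   factor of a twist of `h(Y n)`.
3. In particular it holds for sections `i : X ⟶ Y` of a finite-dimensional variety `Y`, if the
   restrictions `H^n(Y) → H^n(X)` are surjective for `n < d` (weak Lefschetz) and the products with
   the class of `X` on `H^n(Y)` have algebraic inverses (standard conjecture for `Y`).
4. It also holds for varieties `X` which contain, or receive maps `j n` from, finite-dimensional
   varieties `Y n` such that `(j n)_* (j n)^*` has an algebraic inverse on `H^n(X)` (for example
   linear sections of dimension `≥ n`, if `X` satisfies the Lefschetz standard conjecture).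
-/

open CategoryTheory AlgebraicGeometry

set_option autoImplicit false

universe u v w

namespace Pool.Agent.Results.MP_8a7054_ag.LowerHalf

open Pool.Agent.H914 Pool.Agent.W492.BB Pool.Agent.TH133 Pool.Agent.TH829.Kim Pool.Agent.U3.SD
  Pool.Agent.W550.Corr

/-- Self-dual Chow-Kunneth decompositions exist if the projections onto the lower half of the
cohomology can be lifted to correspondences satisfying a nilpotency condition. -/
theorem result {k : Type u} [Field k] {𝒱 : VarClass k} (C : TheoryData.{u, v, 0} 𝒱 ℚ)
    [IsChowProj C] {K : Type w} [Field K] (H : WeilTheoryData.{u, v, w} C K) [IsWeilProj H]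
    (X : 𝒱.Obj) :
    ((∀ n < X.dim, ∃ a : C.A (X.prod X), IsProj H n a ∧ HomNil H a) ↔
      ∃ π : ℕ → C.A (X.prod X), IsCK H X π ∧ IsSelfDual C π ∧ ∀ n < X.dim, HomNil H (π n)) ∧
    (∀ (Y : ℕ → 𝒱.Obj) (r : ℕ → ℤ) (α : ∀ n, C.A (X.prod (Y n))) (β : ∀ n, C.A ((Y n).prod X)),
      (∀ n < X.dim, (HomNil H (dg C (Y n)) ∨ IsKimuraFinite C (ratFam C) (Y n)) ∧
        C.Deg ((X.dim : ℤ) + r n) (α n) ∧ C.Deg (((Y n).dim : ℤ) - r n) (β n) ∧
        IsProj H n (C.comp (α n) (β n))) →
      HasSelfDualCK H X Y r) ∧
    (∀ (Y : 𝒱.Obj) (i : X ⟶ Y), (HomNil H (dg C Y) ∨ IsKimuraFinite C (ratFam C) Y) →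
      (∀ n < X.dim, (∀ x : H.A X, H.Deg n x → ∃ y : H.A Y, H.Deg n y ∧ H.pull i y = x) ∧
        ∃ c, Inverts H i n c) →
      HasSelfDualCK H X (fun _ => Y) (fun _ => (Y.dim : ℤ) - X.dim)) ∧
    (∀ (Y : ℕ → 𝒱.Obj) (j : ∀ n, Y n ⟶ X),
      (∀ n < X.dim, (HomNil H (dg C (Y n)) ∨ IsKimuraFinite C (ratFam C) (Y n)) ∧
        ∃ c, Inverts H (j n) n c) →
      HasSelfDualCK H X Y (fun _ => 0)) :=
  ⟨iff_selfDual X, fun Y r α β h => hasSelfDual_of_factor X Y r α β h,
    fun Y i hY h => hasSelfDual_of_section X Y i hY h,
    fun Y j h => hasSelfDual_of_subvarieties X Y j h⟩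

end Pool.Agent.Results.MP_8a7054_ag.LowerHalf
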