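import Pool.Agent.X308.S.Good

/-!
# Self-dual Chow-Kunneth decompositions of the varieties of surface type

`𝒱` is a class of smooth projective geometrically irreducible varieties over the field `k` closed
under products (for example all of them), `C` the Chow groups with rational coefficients (in the
form of their formal properties, `IsChowProj`), `H` a Weil cohomology theory (`IsWeilProj`), and
`SurfaceProperties H` records two known facts: homologically trivial divisor classes on a product
`X × Y` are sums of pull-backs from the factors, and every surface has the Chow-Kunneth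
decomposition constructed by Murre.

Let `X` be a variety of any dimension whose diagonal is a sum of correspondences which factor
through surfaces (`dg C X ∈ throughSurfaces C X`): the Chow motive of `X` is a direct summand of a
finite sum of twists of motives of surfaces.

**Theorem.** `X` has a self-dual Chow-Kunneth decomposition, which moreover satisfies Murre's
conjectures (B): `F^0 CH^i(X) = CH^i(X)` and `F^(i+1) CH^i(X) = 0`, and (D): `F^1 CH^i(X)` is the
group of homologically trivial cycles.
-/

set_option autoImplicit false

open CategoryTheory AlgebraicGeometry

universe u v w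

namespace Pool.Agent.Results.MP_8a7054_ag.SurfaceType

open Pool.Agent.H914 Pool.Agent.H914.VarClass Pool.Agent.H914.VarClass.Obj Pool.Agent.W492.BB
  Pool.Agent.W550.Corr Pool.Agent.TH133 Pool.Agent.X308.S

/-- **Self-dual Chow-Kunneth decompositions of the varieties of surface type**, with Murre's
properties (B) and (D). -/
theorem result {k : Type u} [Field k] {𝒱 : VarClass k} {C : TheoryData.{u, v, 0} 𝒱 ℚ} {K : Type w}
    [Field K] [IsChowProj C] {H : WeilTheoryData.{u, v, w} C K} [IsWeilProj H]
    (hS : SurfaceProperties H) (X : 𝒱.Obj) (hX : dg C X ∈ throughSurfaces C X) :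
    ∃ π : ℕ → C.A (X.prod X), IsCK H X π ∧ IsSelfDual C π ∧
      (∀ i : ℕ, ckFil C π i 0 = C.gr X i) ∧ (∀ i : ℕ, ckFil C π i (i + 1) = ⊥) ∧
      ∀ (i : ℕ) (x : C.A X), x ∈ ckFil C π i 1 ↔ C.Deg i x ∧ H.cl x = 0 :=
  exists_good hS hX

end Pool.Agent.Results.MP_8a7054_ag.SurfaceType
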